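import Pool.Agent.helper47.SC.Spec

/-!
# Row sc:EXP
-/

namespace Pool.Agent.SC

theorem EXP_EE_pos (m : ℕ → ℕ) (hm : ∀ k, 10 ≤ m k) : ∀ k, 1 ≤ EE m k
  | 0 => le_refl 1
  | k + 1 => by
    have h1 := EXP_EE_pos m hm k
    have h2 := hm k
    show 1 ≤ EE m k * m k
    exact Nat.one_le_iff_ne_zero.mpr (Nat.mul_ne_zero (by omega) (by omega))

theorem EXP_geom (k : ℕ) : ∑ i ∈ Finset.range k, (1 / 2 : ℝ) ^ (i + 1) = 1 - (1 / 2) ^ k := by
  induction k with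
  | zero => simp
  | succ k ih =>
    rw [Finset.sum_range_succ, ih]
    ring

theorem EXP : EXP_stmt := by
  intro D hD
  refine ⟨fun k => 10 + ⌈(2 : ℝ) ^ (k + 1) * Real.log (D k)⌉₊, ?_, ?_⟩
  · intro k
    exact Nat.le_add_right _ _
  · intro k
    have hm : ∀ k : ℕ, 10 ≤ (fun k => 10 + ⌈(2 : ℝ) ^ (k + 1) * Real.log (D k)⌉₊) k :=
      fun k => Nat.le_add_right _ _
    have key : ∀ i : ℕ, eps (fun k => 10 + ⌈(2 : ℝ) ^ (k + 1) * Real.log (D k)⌉₊) i *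
        Real.log (D i) ≤ (1 / 2 : ℝ) ^ (i + 1) := by
      intro i
      have hl : 0 ≤ Real.log (D i) := Real.log_nonneg (hD i)
      have h1 : 1 ≤ EE (fun k => 10 + ⌈(2 : ℝ) ^ (k + 1) * Real.log (D k)⌉₊) i :=
        EXP_EE_pos _ hm i
      have h2 : (2 : ℝ) ^ (i + 1) * Real.log (D i) ≤
          ((10 + ⌈(2 : ℝ) ^ (i + 1) * Real.log (D i)⌉₊ : ℕ) : ℝ) := by
        have := Nat.le_ceil ((2 : ℝ) ^ (i + 1) * Real.log (D i))
        push_cast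
        linarith
      have h3 : ((10 + ⌈(2 : ℝ) ^ (i + 1) * Real.log (D i)⌉₊ : ℕ) : ℝ) ≤
          (EE (fun k => 10 + ⌈(2 : ℝ) ^ (k + 1) * Real.log (D k)⌉₊) (i + 1) : ℝ) := by
        have : (10 + ⌈(2 : ℝ) ^ (i + 1) * Real.log (D i)⌉₊) ≤
            EE (fun k => 10 + ⌈(2 : ℝ) ^ (k + 1) * Real.log (D k)⌉₊) (i + 1) := by
          show _ ≤ EE (fun k => 10 + ⌈(2 : ℝ) ^ (k + 1) * Real.log (D k)⌉₊) i *
            (10 + ⌈(2 : ℝ) ^ (i + 1) * Real.log (D i)⌉₊)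
          exact Nat.le_mul_of_pos_left _ h1
        exact_mod_cast this
      have h4 : (0 : ℝ) < (EE (fun k => 10 + ⌈(2 : ℝ) ^ (k + 1) * Real.log (D k)⌉₊) (i + 1) : ℝ) := by
        refine lt_of_lt_of_le ?_ h3
        have : 0 < 10 + ⌈(2 : ℝ) ^ (i + 1) * Real.log (D i)⌉₊ := by omega
        exact_mod_cast this
      unfold eps
      rw [div_mul_eq_mul_div, one_mul, div_le_iff₀ h4]
      have h5 : (0 : ℝ) < (1 / 2 : ℝ) ^ (i + 1) := by positivity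
      calc Real.log (D i) = (1 / 2 : ℝ) ^ (i + 1) * ((2 : ℝ) ^ (i + 1) * Real.log (D i)) := by
            rw [← mul_assoc, ← mul_pow]; norm_num
        _ ≤ (1 / 2 : ℝ) ^ (i + 1) *
            (EE (fun k => 10 + ⌈(2 : ℝ) ^ (k + 1) * Real.log (D k)⌉₊) (i + 1) : ℝ) :=
            mul_le_mul_of_nonneg_left (h2.trans h3) h5.le
    calc _ ≤ ∑ i ∈ Finset.range k, (1 / 2 : ℝ) ^ (i + 1) := Finset.sum_le_sum fun i _ => key i
      _ = 1 - (1 / 2) ^ k := EXP_geom k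
      _ ≤ 1 := by
        have : (0 : ℝ) < (1 / 2) ^ k := by positivity
        linarith

end Pool.Agent.SC
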