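import Pool.Agent.helper82.SC.SpecA

namespace Pool.Agent.helper82.SC

open Relation

theorem GP_z2 : ∀ a : ZMod 2, a = 0 ∨ a = 1 := by decide

/-- the other wall dart at the same face -/
def GP_s (K : Set F) [DecidablePred (· ∈ K)] (ψ : Dart → ZMod 2) (x : Dart) : Dart :=
  if x.1 ∈ K then (if ψ (x.1, x.2 + 1) = 1 then (x.1, x.2 + 1) else (x.1, x.2 + 2)) else x

/-- the other half of the side -/
def GP_r (ψ : Dart → ZMod 2) (x : Dart) : Dart := if ψ (star x) = 1 then star x else x

theorem GP_sum (K : Set F) (ψ : Dart → ZMod 2) (c : V → ZMod 2)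
    (h : ∀ x : Dart, x.1 ∈ K → ψ x = c (S x.1 x.2) + c (S x.1 (x.2 + 1))) (f : F) (hf : f ∈ K)
    (d : Fin 3) : ψ (f, d) + ψ (f, d + 1) + ψ (f, d + 2) = 0 := by
  rw [h (f, d) hf, h (f, d + 1) hf, h (f, d + 2) hf]
  have e1 : d + 1 + 1 = d + 2 := by fin_cases d <;> rfl
  have e2 : d + 2 + 1 = d := by fin_cases d <;> rfl
  simp only [e1, e2]
  generalize c (S f d) = a
  generalize c (S f (d + 1)) = b
  generalize c (S f (d + 2)) = e
  revert a b e
  decide

/-- the set of wall darts at `K` -/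
def GP_X (K : Set F) (ψ : Dart → ZMod 2) : Set Dart := {x | ψ x = 1 ∧ (x.1 ∈ K ∨ (star x).1 ∈ K)}

theorem GP_fin (K : Set F) (ψ : Dart → ZMod 2) (hK : K.Finite) : (GP_X K ψ).Finite := by
  have h1 : {x : Dart | x.1 ∈ K}.Finite := by
    have h2 : {x : Dart | x.1 ∈ K} = K ×ˢ (Set.univ : Set (Fin 3)) := by
      ext x; simp
    rw [h2]
    exact hK.prod Set.finite_univ
  refine (h1.union (h1.image star)).subset ?_
  rintro x ⟨-, hx | hx⟩
  · exact Or.inl hx
  · exact Or.inr ⟨star x, hx, star_star x⟩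

theorem GP (hPA : PA_stmt) : GP_stmt := by
  classical
  intro K ψ c hK hψ i i' hne hi hi' hcn
  have hsum := GP_sum K ψ c hψ
  have hF : Finite (GP_X K ψ) := (GP_fin K ψ hK).to_subtype
  -- the two involutions preserve the set
  have hsX : ∀ x ∈ GP_X K ψ, GP_s K ψ x ∈ GP_X K ψ := by
    rintro x ⟨hx1, hx2⟩
    unfold GP_s
    by_cases hxK : x.1 ∈ K
    · rw [if_pos hxK]
      by_cases h1 : ψ (x.1, x.2 + 1) = 1
      · rw [if_pos h1]; exact ⟨h1, Or.inl hxK⟩
      · rw [if_neg h1]
        refine ⟨?_, Or.inl hxK⟩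
        have h2 := hsum x.1 hxK x.2
        have h3 := (GP_z2 (ψ (x.1, x.2 + 1))).resolve_right h1
        have h4 : ψ (x.1, x.2) = 1 := hx1
        rw [h3, h4, add_zero] at h2
        rcases GP_z2 (ψ (x.1, x.2 + 2)) with h5 | h5
        · rw [h5] at h2; exact absurd h2 (by decide)
        · exact h5
    · rw [if_neg hxK]; exact ⟨hx1, hx2⟩
  have hrX : ∀ x ∈ GP_X K ψ, GP_r ψ x ∈ GP_X K ψ := by
    rintro x ⟨hx1, hx2⟩
    unfold GP_r
    by_cases h1 : ψ (star x) = 1
    · rw [if_pos h1]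
      refine ⟨h1, ?_⟩
      rw [star_star]
      exact hx2.symm
    · rw [if_neg h1]; exact ⟨hx1, hx2⟩
  let σ : GP_X K ψ → GP_X K ψ := fun x => ⟨GP_s K ψ x, hsX x x.2⟩
  let ρ : GP_X K ψ → GP_X K ψ := fun x => ⟨GP_r ψ x, hrX x x.2⟩
  have hσ : Function.Involutive σ := by
    rintro ⟨x, hx1, hx2⟩
    apply Subtype.ext
    show GP_s K ψ (GP_s K ψ x) = x
    obtain ⟨f, d⟩ := x
    have h4 : ψ (f, d) = 1 := hx1
    by_cases hxK : f ∈ K
    · have h2 := hsum f hxK d
      rw [h4] at h2
      by_cases h1 : ψ (f, d + 1) = 1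
      · have e1 : GP_s K ψ (f, d) = (f, d + 1) := by
          unfold GP_s; rw [if_pos hxK, if_pos h1]
        rw [e1]
        have h3 : ψ (f, d + 1 + 1) ≠ 1 := by
          have e3 : d + 1 + 1 = d + 2 := by fin_cases d <;> rfl
          rw [e3]
          intro h5
          rw [h1, h5] at h2
          exact absurd h2 (by decide)
        unfold GP_s
        rw [if_pos hxK, if_neg h3]
        have e4 : d + 1 + 2 = d := by fin_cases d <;> rfl
        simp only [e4]
      · have e1 : GP_s K ψ (f, d) = (f, d + 2) := by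
          unfold GP_s; rw [if_pos hxK, if_neg h1]
        rw [e1]
        have e3 : d + 2 + 1 = d := by fin_cases d <;> rfl
        unfold GP_s
        simp only [e3]
        rw [if_pos hxK, if_pos h4]
    · have e1 : GP_s K ψ (f, d) = (f, d) := by
        unfold GP_s; rw [if_neg hxK]
      rw [e1, e1]
  have hρ : Function.Involutive ρ := by
    rintro ⟨x, hx1, hx2⟩
    apply Subtype.ext
    show GP_r ψ (GP_r ψ x) = x
    by_cases h1 : ψ (star x) = 1
    · have e1 : GP_r ψ x = star x := by unfold GP_r; rw [if_pos h1]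
      rw [e1]
      unfold GP_r
      rw [star_star, if_pos hx1]
    · have e1 : GP_r ψ x = x := by unfold GP_r; rw [if_neg h1]
      rw [e1, e1]
  let L : GP_X K ψ → ZMod 2 := fun x => c (S x.1.1 x.1.2)
  have hL1 : ∀ x, σ x ≠ x → L (σ x) = L x + 1 := by
    rintro ⟨⟨f, d⟩, hx1, hx2⟩ hne
    have hxK : f ∈ K := by
      by_contra hxK
      apply hne
      apply Subtype.ext
      show GP_s K ψ (f, d) = (f, d)
      unfold GP_s; rw [if_neg hxK]
    have h1 : ψ (f, d) = 1 := hx1
    rw [hψ (f, d) hxK] at h1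
    have h1' : c (S f d) + c (S f (d + 1)) = 1 := h1
    show c (S (GP_s K ψ (f, d)).1 (GP_s K ψ (f, d)).2) = c (S f d) + 1
    by_cases h2 : ψ (f, d + 1) = 1
    · have e1 : GP_s K ψ (f, d) = (f, d + 1) := by
        unfold GP_s; rw [if_pos hxK, if_pos h2]
      rw [e1]
      show c (S f (d + 1)) = c (S f d) + 1
      rcases GP_z2 (c (S f d)) with h | h <;> rcases GP_z2 (c (S f (d + 1))) with h' | h' <;>
        rw [h, h'] at h1' ⊢ <;> revert h1' <;> decide
    · have e1 : GP_s K ψ (f, d) = (f, d + 2) := by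
        unfold GP_s; rw [if_pos hxK, if_neg h2]
      rw [e1]
      show c (S f (d + 2)) = c (S f d) + 1
      have e3 : d + 1 + 1 = d + 2 := by fin_cases d <;> rfl
      have h3 := (GP_z2 (ψ (f, d + 1))).resolve_right h2
      rw [hψ (f, d + 1) hxK] at h3
      have h3' : c (S f (d + 1)) + c (S f (d + 2)) = 0 := by
        rw [← e3]; exact h3
      rcases GP_z2 (c (S f d)) with h | h <;> rcases GP_z2 (c (S f (d + 1))) with h' | h' <;>
        rcases GP_z2 (c (S f (d + 2))) with h'' | h'' <;>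
        rw [h, h'] at h1' <;> rw [h', h''] at h3' <;> rw [h, h''] <;> revert h1' h3' <;> decide
  have hL2 : ∀ x, ρ x ≠ x → L (ρ x) = L x + 1 := by
    rintro ⟨⟨f, d⟩, hx1, hx2⟩ hne
    have h1 : ψ (star (f, d)) = 1 := by
      by_contra h1
      apply hne
      apply Subtype.ext
      show GP_r ψ (f, d) = (f, d)
      unfold GP_r; rw [if_neg h1]
    have e1 : GP_r ψ (f, d) = star (f, d) := by unfold GP_r; rw [if_pos h1]
    show c (S (GP_r ψ (f, d)).1 (GP_r ψ (f, d)).2) = c (S f d) + 1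
    rw [e1]
    show c (S (tw f d) d) = c (S f d) + 1
    rw [S_tw]
    have h2 : c (S f d) + c (S f (d + 1)) = 1 := by
      rcases hx2 with hxK | hxK
      · have := hψ (f, d) hxK
        rw [show ψ (f, d) = 1 from hx1] at this
        exact this.symm
      · have h3 := hψ (star (f, d)) hxK
        rw [h1] at h3
        have h4 : (1 : ZMod 2) = c (S (tw f d) d) + c (S (tw f d) (d + 1)) := h3
        rw [S_tw, S_tw'] at h4
        rw [h4, add_comm]
    rcases GP_z2 (c (S f d)) with h | h <;> rcases GP_z2 (c (S f (d + 1))) with h' | h' <;>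
      rw [h, h'] at h2 ⊢ <;> revert h2 <;> decide
  -- incidences
  have hinX : ∀ i : Dart × Bool, Inc K ψ i → i.1 ∈ GP_X K ψ := fun i hi => ⟨hi.1, hi.2.1⟩
  have hFx : ∀ (i : Dart × Bool) (hi : Inc K ψ i), Fx σ ρ (⟨i.1, hinX i hi⟩, i.2) := by
    rintro ⟨x, b⟩ hi
    cases b with
    | true =>
      show σ ⟨x, _⟩ = ⟨x, _⟩
      apply Subtype.ext
      show GP_s K ψ x = x
      have h1 : x.1 ∉ K := by simpa using hi.2.2
      unfold GP_s; rw [if_neg h1]
    | false =>
      show ρ ⟨x, _⟩ = ⟨x, _⟩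
      apply Subtype.ext
      show GP_r ψ x = x
      have h1 : ψ (star x) = 0 := by simpa using hi.2.2
      unfold GP_r; rw [h1, if_neg (by decide)]
  -- paths
  have hpath : ∀ y, CnK K ψ i.1 y → ∃ hy : y ∈ GP_X K ψ,
      ReflTransGen (fun a b => b = σ a ∨ b = ρ a) (⟨i.1, hinX i hi⟩ : GP_X K ψ) ⟨y, hy⟩ := by
    intro y hy
    induction hy with
    | refl => exact ⟨hinX i hi, ReflTransGen.refl⟩
    | @tail u v _ huv ih =>
      obtain ⟨hu, hpu⟩ := ih
      obtain ⟨h1, h2, h3⟩ := huv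
      rcases h3 with ⟨huK, he, hne⟩ | ⟨hK', he⟩
      · have hv : v = GP_s K ψ u := by
          obtain ⟨f, d⟩ := u
          obtain ⟨f', d'⟩ := v
          have he' : f = f' := he
          subst he'
          have hdd : d' ≠ d := fun h => hne (by rw [h])
          have h5 := hsum f huK d
          rw [h1] at h5
          have hd3 : d' = d + 1 ∨ d' = d + 2 := by
            revert hdd
            fin_cases d <;> fin_cases d' <;> decide
          unfold GP_s
          rcases hd3 with rfl | rfl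
          · rw [if_pos huK, if_pos h2]
          · have h6 : ψ (f, d + 1) ≠ 1 := by
              intro h6
              rw [h6, h2] at h5
              exact absurd h5 (by decide)
            rw [if_pos huK, if_neg h6]
        refine ⟨⟨h2, Or.inl (he ▸ huK)⟩, hpu.tail (Or.inl (Subtype.ext hv))⟩
      · have hv : v = GP_r ψ u := by
          unfold GP_r
          rw [← he, if_pos h2]
        refine ⟨⟨h2, ?_⟩, hpu.tail (Or.inr (Subtype.ext hv))⟩
        rw [he, star_star, ← he]
        exact hK'.symm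
  obtain ⟨hy, hp⟩ := hpath i'.1 hcn
  have hne' : ((⟨i'.1, hinX i' hi'⟩, i'.2) : GP_X K ψ × Bool) ≠ (⟨i.1, hinX i hi⟩, i.2) := by
    intro h
    apply hne
    have h1 := congrArg (fun z : GP_X K ψ × Bool => (z.1 : Dart)) h
    have h2 := congrArg Prod.snd h
    exact Prod.ext h1 h2
  exact hPA (GP_X K ψ) σ ρ hσ hρ L hL1 hL2 (⟨i.1, hinX i hi⟩, i.2) (⟨i'.1, hinX i' hi'⟩, i'.2)
    hne' (hFx i hi) (hFx i' hi') hp

end Pool.Agent.helper82.SC
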